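import Mathlib
import Pool.Agent.Run7.h188.FW.Main

/-!
# A Fine-Wilf theorem for generic rigidity

The exact generic rank in `ℝ³` (and in `ℝ^d`) of the distance graphs with four (with `d + 1`)
differences, and the characterization of the generically rigid ones.

Definitions.
* `dG n d e` (`Pool.Agent.Run7.h188.FW.Stm`): the graph on `0, .., n - 1` in which `i` and `j` are
  adjacent if and only if `|i - j|` is one of the `d + 1` positive numbers `e 1, .., e (d + 1)`.
* `GenRigid d G`, `genRank d G` (starting files `Pool.Agent.H283R2.DR.Defs`, `Pool.Agent.H789R5.RF.Rank`):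
  `G` is generically rigid in `ℝ^d` (some, equivalently almost every, placement is infinitesimally
  rigid); the generic rank, the largest rank of the rigidity matrix at a placement in `ℝ^d`.

Proof. Put the vertex `j` at `(κ 1 ^ j, .., κ d ^ j)`, `κ i = q ^ (2 ^ i - 1)`, with a large prime `q`,
and `κ 0 = 1`. A stress is a vector of polynomials `W 0, .., W (d + 1)` with
`∑ k, (κ i ^ e k + κ i ^ (- e k) X ^ e k) W k = 0` for `i = 0, .., d`. The maximal minors of this
`(d + 1) × (d + 2)` matrix have the greatest common divisor `∏ (X - κ i κ j)`, `i < j`: at a common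
zero `z` the rows are dependent, and the two largest terms of the dependence must have the same
`q`-adic norm in each column, which is impossible (this is where consecutive gaps have to be coprime).
So the primitive solution has degree `e 0 + .. + e d - d (d + 1) / 2` in its last component, and the
last component of `W` is shorter than that.
-/

set_option autoImplicit false

namespace Pool.Agent.Results.MP_37c7bf_co.FineWilf

open Finset Pool.Agent.H789R5 Pool.Agent.H283R2.DR Pool.Agent.Run7.h188.FW

/-- Let `0 = e 0 < e 1 < .. < e (d + 1)` be integers such that any two consecutive gaps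
`e (k + 1) - e k` and `e (k + 2) - e (k + 1)` are coprime, and let `dG n d e` be the graph on
`0, .., n - 1` in which `i` and `j` are adjacent iff `|i - j|` is one of `e 1, .., e (d + 1)`.

(1) For all `n ≥ d` its generic rank in `ℝ^d` is the minimum of its number of edges and
`d n - d (d + 1) / 2`; it is generically rigid in `ℝ^d` iff it has at least `d n - d (d + 1) / 2` edges.

(2) For all `n ≥ e (d + 1)` it is generically rigid in `ℝ^d` if and only if
`e 1 + .. + e (d + 1) ≤ n + d (d + 1) / 2`. For `d = 1` this is the theorem of Fine and Wilf. -/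
theorem result (d : ℕ) (e : ℕ → ℕ) (h0 : e 0 = 0) (hm : ∀ k ≤ d, e k < e (k + 1))
    (hc : ∀ k < d, Nat.Coprime (e (k + 1) - e k) (e (k + 2) - e (k + 1))) (n : ℕ) :
    (d ≤ n → genRank d (dG n d e) = min (dG n d e).edgeSet.ncard (d * n - d * (d + 1) / 2) ∧
      (GenRigid d (dG n d e) ↔ d * n ≤ (dG n d e).edgeSet.ncard + d * (d + 1) / 2)) ∧
    (e (d + 1) ≤ n →
      (GenRigid d (dG n d e) ↔ ∑ k ∈ range (d + 2), e k ≤ n + d * (d + 1) / 2)) :=
  fineWilf d e h0 hm hc n

end Pool.Agent.Results.MP_37c7bf_co.FineWilf
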