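import Mathlib
import Pool.Agent.N423.HB.K5c
import Pool.Agent.Run7.h110.PF.Rig

/-!
# Generic rigidity in three dimensions of graphs without induced path on five vertices

Let `G` be a finite connected graph without induced path on five vertices, `r` its rank in the generic
`3`-dimensional rigidity matroid, and `m` the minimum of `|E(G ∪ K_{A_1} ∪ … ∪ K_{A_t})| - t` over all sequences
of sets `A_1, …, A_t` with five vertices such that each contains a pair which is contained in none of the sets before
it (the number which Clinch, Jackson and Tanigawa proved to be the rank in the cofactor matroid).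

* `r ≤ m ≤ r + 1`.
* If `G` has no induced cycle on five vertices either, then `r = m`: this is a characterization of the generically rigid
  graphs in the hereditary class of all graphs without induced `P_5` and `C_5`, which contains all split graphs, all
  graphs without induced `P_4`, and all complements of chordal graphs; and no matroid on the pairs of vertices in which
  the complete graphs with five vertices are circuits gives `G` a larger rank.
* If `G` is `10`-connected, then `G` is generically rigid (for all graphs `12`-connectivity is sufficient and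
  `11`-connectivity is not). If `G` is `7`-connected, then it has at most one degree of freedom, and if moreover it has
  no induced `C_5`, then it is generically rigid; `5`-connectivity is enough for this if every edge is in a `K_4`.

Proof. (1) A minimum connected dominating set `D` of a graph without induced `P_5` is a clique or an induced path `a b c`,
and the second is possible only if there is an induced `C_5` (Bacsó and Tuza; a short proof is in `Run7/h110/PF/Dom`).
(2) The rank formula and the theorem on seven-connected graphs for graphs with a dominating clique are starting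
results of this problem (libraries `N423`, by helper423 and others); in the second case of (1) they are applied to `G + ac`.
(3) Let `P_a`, `P_c` be the sets of the vertices whose only neighbour in `D = {a, b, c}` is `a`, `c`. Each vertex of `P_a` is
adjacent to each of `P_c`, since otherwise there is an induced `P_5`. If both have at least four elements, then `G` contains
`K_{5,5}` without the edge `ac`, and `a`, `c` are linked, because `K_{5,5}` has `25 > 3 · 10 - 6` edges and its
automorphisms act transitively on them. If `P_a` has at most three elements, then `G - P_a` has the dominating edge `bc`,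
and it is `7`-connected if `G` is `10`-connected.
-/

set_option autoImplicit false

namespace Pool.Agent.Results.MP_37c7bf_co.NoInducedFivePath

open Finset Pool.Agent.H283R2.DR Pool.Agent.H789R5 Pool.Agent.N423.DE Pool.Agent.N423.DC
  Pool.Agent.N423.DT Pool.Agent.N423.HB Pool.Agent.Run7.h110.PF

/-- The numbers `|E(G ∪ K_{A_1} ∪ … ∪ K_{A_t})| - t`, over all sequences of sets `A_i` with five vertices such that each
contains a pair which is contained in none of the sets before it. -/
def bounds {V : Type} (G : SimpleGraph V) : Set ℕ :=
  {m : ℕ | ∃ L : List (Finset V), Proper 5 L ∧ m + L.length = (cover G L).edgeSet.ncard}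

theorem upper' {V : Type} [Fintype V] (G : SimpleGraph V) {L : List (Finset V)} (hL : Proper 5 L) :
    genRank 3 G + L.length ≤ (cover G L).edgeSet.ncard := by
  obtain ⟨p, hp⟩ := exists_mg V 3
  have h1 := genRank_add hp G
  have h2 := upper hp G hL
  omega

/-- the rank formula for graphs with a dominating set of pairwise linked vertices (starting result) -/
theorem formula {V : Type} [Fintype V] {G : SimpleGraph V} {R : Finset V} (hR : R.Nonempty) (h : LHub G R) :
    IsLeast (bounds G) (genRank 3 G) ∧
      (3 ≤ Fintype.card V → (GenRigid 3 G ↔ ∀ m ∈ bounds G, 3 * Fintype.card V ≤ m + 6)) ∧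
      (∀ M : Matroid (Sym2 V), (∀ A : Finset V, A.card = 5 → M.IsCircuit (pairs A)) →
        M.eRk G.edgeSet ≤ genRank 3 G) := by
  classical
  obtain ⟨p, hp⟩ := exists_mg V 3
  have hr := genRank_add hp G
  obtain ⟨L, hL, hLeq⟩ := eq_all t_seq hp hR h
  have hk : genRank 3 G + L.length = (cover G L).edgeSet.ncard := by omega
  have hle : IsLeast (bounds G) (genRank 3 G) := by
    refine ⟨⟨L, hL, hk⟩, ?_⟩
    rintro m ⟨L', hL', hm⟩
    have := upper' G hL'
    omega
  refine ⟨hle, ?_, fun M hM => matroid_le hM G hL hk⟩
  intro hd
  rw [genRigid_iff hp hd]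
  constructor
  · intro h' m hm
    have := hle.2 hm
    omega
  · intro h'
    have := h' _ hle.1
    omega

/-- one edge more -/
theorem rank_edge {V : Type} [Fintype V] (G : SimpleGraph V) (a c : V) :
    genRank 3 (G ⊔ SimpleGraph.edge a c) ≤ genRank 3 G + 1 := by
  classical
  obtain ⟨p, hp⟩ := exists_mg V 3
  have h1 := genRank_add hp G
  have h2 := genRank_add hp (G ⊔ SimpleGraph.edge a c)
  have h3 := mo_le_add (G := G) (G' := G ⊔ SimpleGraph.edge a c) p
  have h4 : ((G ⊔ SimpleGraph.edge a c).edgeSet \ G.edgeSet).ncard ≤ 1 := by
    have h5 : (G ⊔ SimpleGraph.edge a c).edgeSet \ G.edgeSet ⊆ {s(a, c)} := by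
      rintro e ⟨he, hne⟩
      rw [SimpleGraph.edgeSet_sup] at he
      rcases he with he | he
      · exact absurd he hne
      · induction e with
        | _ x y =>
          rw [SimpleGraph.mem_edgeSet, SimpleGraph.edge_adj] at he
          rcases he.1 with ⟨rfl, rfl⟩ | ⟨rfl, rfl⟩
          · rfl
          · exact Sym2.eq_swap
    calc _ ≤ ({s(a, c)} : Set (Sym2 V)).ncard := Set.ncard_le_ncard h5 (Set.toFinite _)
      _ = 1 := Set.ncard_singleton _
  omega

theorem hub_of_clique {V : Type} [Fintype V] {G : SimpleGraph V} {R : Finset V}
    (hc : ∀ a ∈ R, ∀ b ∈ R, a ≠ b → G.Adj a b) (hd : ∀ v, v ∉ R → ∃ r ∈ R, G.Adj v r) : LHub G R := by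
  obtain ⟨p, hp⟩ := exists_mg V 3
  refine ⟨fun a ha b hb hab => linked_of_imp hp (imp_of_adj (hc a ha b hb hab)), fun v hv => ?_⟩
  obtain ⟨r, hr, hvr⟩ := hd v hv
  exact ⟨r, hr, linked_of_imp hp (imp_of_adj hvr)⟩

theorem kconnected_mono {V : Type} {k : ℕ} {G G' : SimpleGraph V} (h : KConnected k G) (hle : G ≤ G') :
    KConnected k G' := fun S hS => (h S hS).mono (SimpleGraph.comap_monotone _ hle)

/-- **Generic rigidity in `ℝ³` of graphs without induced path on five vertices.** Let `G` be a finite connected graph
without induced path on five vertices.

(1) The least of the numbers `bounds G` is at least the rank of `G` in the generic `3`-dimensional rigidity matroid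
and exceeds it by at most one.

(2) If `G` is `10`-connected, then it is generically rigid in `ℝ³`; if `G` is `7`-connected, its rank is at
least `3 n - 7`.

(3) If `G` has no induced cycle on five vertices either, then its rank is the least of the numbers `bounds G`; `G` (with
`n ≥ 3` vertices) is generically rigid in `ℝ³` if and only if all the numbers `bounds G` are at least `3 n - 6`; no
matroid on the pairs of vertices in which the complete graphs with five vertices are circuits gives `G` a larger rank;
and `G` is generically rigid in `ℝ³` if it is `7`-connected, or if it is `5`-connected and each edge is in a complete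
graph with four vertices. -/
theorem result (V : Type) [Fintype V] (G : SimpleGraph V) (hG : G.Connected)
    (h5 : IsEmpty (SimpleGraph.pathGraph 5 ↪g G)) :
    (∃ m, IsLeast (bounds G) m ∧ genRank 3 G ≤ m ∧ m ≤ genRank 3 G + 1) ∧
    (KConnected 10 G → GenRigid 3 G) ∧
    (KConnected 7 G → 3 * Fintype.card V ≤ genRank 3 G + 7) ∧
    (IsEmpty (SimpleGraph.cycleGraph 5 ↪g G) →
      IsLeast (bounds G) (genRank 3 G) ∧
      (3 ≤ Fintype.card V → (GenRigid 3 G ↔ ∀ m ∈ bounds G, 3 * Fintype.card V ≤ m + 6)) ∧
      (∀ M : Matroid (Sym2 V), (∀ A : Finset V, A.card = 5 → M.IsCircuit (pairs A)) →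
        M.eRk G.edgeSet ≤ genRank 3 G) ∧
      (KConnected 7 G → GenRigid 3 G) ∧
      (KConnected 5 G → K4Cov G → GenRigid 3 G)) := by
  classical
  have hP := noP5_of h5
  obtain ⟨p, hp⟩ := exists_mg V 3
  have hr := genRank_add hp G
  have hseven : ∀ {H : SimpleGraph V} {R : Finset V}, R.Nonempty → LHub H R → KConnected 7 H → GenRigid 3 H := by
    intro H R hR hH h7
    have := card_ge h7 (by omega)
    exact sev V H (by omega) (con7_of h7) R hR hH
  have hm10 : ∀ {H : SimpleGraph V}, KConnected 10 H → KConnected 7 H := fun h S hS => h S (by omega)
  obtain ⟨D, hD, hdom, hcl | ⟨hC5, a, b, c, rfl, hab, hbc, hac, hne⟩⟩ := dominating hG hP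
  · -- a dominating clique
    have hH := hub_of_clique hcl hdom
    obtain ⟨h1, h2, h3⟩ := formula hD hH
    have h7 : KConnected 7 G → GenRigid 3 G := hseven hD hH
    refine ⟨⟨_, h1, le_refl _, Nat.le_succ _⟩, fun h => h7 (hm10 h), fun h => ?_, fun _ => ⟨h1, h2, h3, h7, ?_⟩⟩
    · have h4 := h7 h
      have h5 := card_ge h (by omega)
      rw [genRigid_iff hp (by omega)] at h4
      omega
    · intro h hK
      have h5 := card_ge h (by omega)
      exact fiveK c1x c2k c3 V G (by omega) (con5_of h) hK D hD hH
  · -- a dominating path
    set R : Finset V := {a, b, c} with hR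
    set G' : SimpleGraph V := G ⊔ SimpleGraph.edge a c with hG'
    have hle : G ≤ G' := le_sup_left
    have hac' : G'.Adj a c := Or.inr (by rw [SimpleGraph.edge_adj]; exact ⟨Or.inl ⟨rfl, rfl⟩, hne⟩)
    have hH' : LHub G' R := by
      apply hub_of_clique
      · intro x hx y hy hxy
        simp only [hR, mem_insert, mem_singleton] at hx hy
        rcases hx with rfl | rfl | rfl <;> rcases hy with rfl | rfl | rfl
        · exact absurd rfl hxy
        · exact hle hab
        · exact hac'
        · exact hle hab.symm
        · exact absurd rfl hxy
        · exact hle hbc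
        · exact hac'.symm
        · exact hle hbc.symm
        · exact absurd rfl hxy
      · intro v hv
        obtain ⟨r, hr, hvr⟩ := hdom v hv
        exact ⟨r, hr, hle hvr⟩
    have hrk : genRank 3 G' ≤ genRank 3 G + 1 := rank_edge G a c
    have hr' := genRank_add hp G'
    refine ⟨?_, fun h10 => ?_, fun h7 => ?_, fun hC => absurd (noC5_of hC) hC5⟩
    · obtain ⟨⟨⟨L, hL, hLeq⟩, -⟩, -, -⟩ := formula hD hH'
      have hne' : (bounds G).Nonempty := ⟨(cover G []).edgeSet.ncard, [], trivial, by simp⟩
      refine ⟨sInf (bounds G), ⟨Nat.sInf_mem hne', fun m hm => Nat.sInf_le hm⟩, ?_, ?_⟩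
      · obtain ⟨L', hL', hm⟩ := Nat.sInf_mem hne'
        have := upper' G hL'
        omega
      · have h1 : (cover G L).edgeSet.ncard ≤ (cover G' L).edgeSet.ncard := by
          apply Set.ncard_le_ncard _ (Set.toFinite _)
          apply SimpleGraph.edgeSet_subset_edgeSet.2
          rintro x y ⟨hxy, h | h⟩
          · exact ⟨hxy, Or.inl (hle h)⟩
          · exact ⟨hxy, Or.inr h⟩
        have h2 := upper' G hL
        have h3 : (cover G L).edgeSet.ncard - L.length ∈ bounds G := ⟨L, hL, by omega⟩
        have h4 := Nat.sInf_le h3
        omega
    · -- ten-connected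
      set Pa : Finset V := univ.filter (fun y => G.Adj y a ∧ ¬ G.Adj y b ∧ ¬ G.Adj y c) with hPa
      set Pc : Finset V := univ.filter (fun y => G.Adj y c ∧ ¬ G.Adj y b ∧ ¬ G.Adj y a) with hPc
      have hjoin : ∀ y ∈ Pa, ∀ z ∈ Pc, G.Adj y z := by
        intro y hy z hz
        obtain ⟨hy1, hy2, hy3⟩ := (mem_filter.1 hy).2
        obtain ⟨hz1, hz2, hz3⟩ := (mem_filter.1 hz).2
        rcases hP y a b c z hy1 hab hbc hz1.symm with h' | h' | h' | h' | h' | h'
        · exact absurd h' hy2
        · exact absurd h' hy3
        · exact h'
        · exact absurd h' hac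
        · exact absurd h'.symm hz3
        · exact absurd h'.symm hz2
      by_cases hA : Pa.card ≤ 3
      · refine rigid_of_few h10 hA (b := b) (c := c) ?_ ?_ hbc ?_
        · intro h; exact (mem_filter.1 h).2.2.2 hbc
        · intro h; exact (mem_filter.1 h).2.2.1 hbc.symm
        · intro v hv
          by_contra hcon
          push Not at hcon
          obtain ⟨h1, h2, h3, h4⟩ := hcon
          apply hv
          refine mem_filter.2 ⟨mem_univ _, ?_, h3, h4⟩
          have hva : v ≠ a := fun h => h3 (h ▸ hab)
          obtain ⟨r, hr, hvr⟩ := hdom v (by simp [hR, hva, h1, h2])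
          simp only [hR, mem_insert, mem_singleton] at hr
          rcases hr with rfl | rfl | rfl
          · exact hvr
          · exact absurd hvr h3
          · exact absurd hvr h4
      by_cases hB : Pc.card ≤ 3
      · refine rigid_of_few h10 hB (b := b) (c := a) ?_ ?_ hab.symm ?_
        · intro h; exact (mem_filter.1 h).2.2.2 hab.symm
        · intro h; exact (mem_filter.1 h).2.2.1 hab
        · intro v hv
          by_contra hcon
          push Not at hcon
          obtain ⟨h1, h2, h3, h4⟩ := hcon
          apply hv
          refine mem_filter.2 ⟨mem_univ _, ?_, h3, h4⟩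
          have hvc : v ≠ c := fun h => h3 (h ▸ hbc.symm)
          obtain ⟨r, hr, hvr⟩ := hdom v (by simp [hR, hvc, h1, h2])
          simp only [hR, mem_insert, mem_singleton] at hr
          rcases hr with rfl | rfl | rfl
          · exact absurd hvr h4
          · exact absurd hvr h3
          · exact hvr
      -- `a` and `c` are linked
      obtain ⟨X, hXP, hX⟩ := exists_subset_card_eq (show 4 ≤ Pa.card by omega)
      obtain ⟨Y, hYP, hY⟩ := exists_subset_card_eq (show 4 ≤ Pc.card by omega)
      have hcX : c ∉ X := fun h => (mem_filter.1 (hXP h)).2.2.1 hbc.symm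
      have haY : a ∉ Y := fun h => (mem_filter.1 (hYP h)).2.2.1 hab
      have haX : a ∉ X := fun h => (mem_filter.1 (hXP h)).2.1.ne rfl
      have hcY : c ∉ Y := fun h => (mem_filter.1 (hYP h)).2.1.ne rfl
      have himp : Imp G p c a := by
        refine imp_kfive hp (X := insert c X) (Y := insert a Y) ?_ (by rw [card_insert_of_notMem hcX, hX])
          (by rw [card_insert_of_notMem haY, hY]) (mem_insert_self _ _) (mem_insert_self _ _) ?_
        · rw [Finset.disjoint_left]
          intro x hx hy
          rw [mem_insert] at hx hy
          rcases hx with rfl | hx <;> rcases hy with h | hy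
          · exact hne h.symm
          · exact hcY hy
          · exact haX (h ▸ hx)
          · exact (mem_filter.1 (hXP hx)).2.2.2 (mem_filter.1 (hYP hy)).2.1
        · intro x hx y hy hxy
          rw [mem_insert] at hx hy
          rcases hx with rfl | hx <;> rcases hy with rfl | hy
          · exact absurd ⟨rfl, rfl⟩ hxy
          · exact (mem_filter.1 (hYP hy)).2.1.symm
          · exact (mem_filter.1 (hXP hx)).2.1
          · exact hjoin x (hXP hx) y (hYP hy)
      have hlk : Linked 3 G c a := linked_of_imp hp himp
      have hH : LHub G R := by
        refine ⟨fun x hx y hy hxy => ?_, fun v hv => ?_⟩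
        · simp only [hR, mem_insert, mem_singleton] at hx hy
          rcases hx with rfl | rfl | rfl <;> rcases hy with rfl | rfl | rfl
          · exact absurd rfl hxy
          · exact linked_of_imp hp (imp_of_adj hab)
          · exact linked_symm hlk
          · exact linked_of_imp hp (imp_of_adj hab.symm)
          · exact absurd rfl hxy
          · exact linked_of_imp hp (imp_of_adj hbc)
          · exact hlk
          · exact linked_of_imp hp (imp_of_adj hbc.symm)
          · exact absurd rfl hxy
        · obtain ⟨r, hr, hvr⟩ := hdom v hv
          exact ⟨r, hr, linked_of_imp hp (imp_of_adj hvr)⟩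
      exact hseven hD hH (hm10 h10)
    · have h4 := hseven hD hH' (kconnected_mono h7 hle)
      have h5 := card_ge h7 (by omega)
      rw [genRigid_iff hp (by omega)] at h4
      omega

end Pool.Agent.Results.MP_37c7bf_co.NoInducedFivePath
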