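import Pool.Agent.Run7.h933.RP.Link

/-!
# The generic rigidity matroid of graphs without long paths

(1) A circuit of the generic rigidity matroid in `ℝ^d` is tough: after deletion of any set `C` of
its vertices it has at most `d |C| + 1` connected components.

(2) In a generically rigid finite graph any two vertices lie in a generically rigid induced subgraph
which has at most `d |C| + 2` components after deletion of any set `C` of its vertices.

(3) Let `G` be a finite graph without a path on `m` vertices (as a subgraph, not necessarily
induced). Then the generic rigidity matroid of `G` in `ℝ^d` is determined by its subgraphs on at most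
`N = (d m + 2) ^ m` vertices: if `G` is a circuit then it has at most `N` vertices; `G` is
independent if and only if its subgraphs on at most `N` vertices are; a pair of vertices is in the
closure of the edge set of `G` if and only if it is in the closure of the edge set of a subgraph on
at most `N` vertices; and `G` is generically rigid in `ℝ^d` if and only if any two vertices are
contained in a set of at most `N` vertices which induces a generically rigid graph.

(4) On these graphs generic rigidity in `ℝ^d` is expressed by a first-order sentence.
-/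

set_option autoImplicit false

open Pool.Agent.H283R2.DR Pool.Agent.H789R5 Run7.h933.RP

namespace Pool.Agent.Results.MP_37c7bf_co.NoLongPath

theorem result (d m : ℕ) :
    (∀ (V : Type) [Fintype V] [DecidableEq V] (G : SimpleGraph V), Circuit d G →
      G.support = Set.univ → ∀ C : Finset V,
        Nat.card (G.induce (↑(Finset.univ \ C) : Set V)).ConnectedComponent ≤ d * C.card + 1) ∧
    (∀ (V : Type) [Fintype V] [DecidableEq V] (G : SimpleGraph V), GenRigid d G ↔
      ∀ u v : V, ∃ U : Finset V, u ∈ U ∧ v ∈ U ∧ GenRigid d (G.induce (↑U : Set V)) ∧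
        ∀ C ⊆ U, Nat.card (G.induce (↑(U \ C) : Set V)).ConnectedComponent ≤ d * C.card + 2) ∧
    (∀ (V : Type) [Fintype V] (G : SimpleGraph V), (SimpleGraph.pathGraph m).Free G →
      (Circuit d G → G.support.ncard ≤ (d * m + 2) ^ m) ∧
      (Indep d G ↔ ∀ H ≤ G, H.support.ncard ≤ (d * m + 2) ^ m → Indep d H) ∧
      (∀ u v : V, genRank d (G ⊔ SimpleGraph.edge u v) = genRank d G ↔
        ∃ H ≤ G, H.support.ncard ≤ (d * m + 2) ^ m ∧
          genRank d (H ⊔ SimpleGraph.edge u v) = genRank d H) ∧
      (GenRigid d G ↔ ∀ u v : V, ∃ U : Finset V, u ∈ U ∧ v ∈ U ∧ U.card ≤ (d * m + 2) ^ m ∧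
        GenRigid d (G.induce (↑U : Set V)))) ∧
    ∃ φ : FirstOrder.Language.graph.Sentence, ∀ (V : Type) [Fintype V] (G : SimpleGraph V),
      (SimpleGraph.pathGraph m).Free G →
      (@FirstOrder.Language.Sentence.Realize FirstOrder.Language.graph V G.structure φ ↔
        GenRigid d G) := by
  refine ⟨fun V _ _ G h hs C => circuit_tough h hs C, ?_, ?_, ?_⟩
  · intro V _ _ G
    obtain ⟨p, hp⟩ := exists_gen V d
    constructor
    · intro hG u v
      obtain ⟨U, hu, hv, hU, hW⟩ := exists_tough ((hp.genRigid_iff G).1 hG) u v
      exact ⟨U, hu, hv, (hp.genRigid_induce_iff G _).2 hU, fun C hC =>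
        comp_card_le fun F hF => hW C hC F hF⟩
    · intro h
      rw [hp.genRigid_iff G]
      apply rigid_of_pairs hp
      intro u v
      obtain ⟨U, h1, h2, h3, -⟩ := h u v
      exact ⟨U, h1, h2, (hp.genRigid_induce_iff G _).1 h3⟩
  · intro V _ G hG
    have hpath := list_of_free hG
    exact ⟨fun h => circuit_small hpath h, indep_local hpath, closure_local hpath,
      local_iff hpath⟩
  · obtain ⟨φ, hφ⟩ := exists_sentence d ((d * m + 2) ^ m)
    refine ⟨φ, fun V _ G hG => ?_⟩
    rw [hφ V G]
    exact (local_iff (list_of_free hG)).symm

end Pool.Agent.Results.MP_37c7bf_co.NoLongPath
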