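import Mathlib
import Pool.Agent.Run7.h804.PV.Main

/-!
# Generic rigidity of vertex-transitive graphs with a prime number of vertices

The exact generic rank in `ℝ³` (and in `ℝ^d`) of all vertex-transitive graphs whose number of vertices
is a prime, with a characterization of the generically rigid ones, and the rigidity of these graphs
without a vertex and several edges.

Definitions (starting files `Pool.Agent.H283R2.DR.Defs`, `Pool.Agent.H789R5.RF.Rank`).
* `GenRigid d G`: `G` is generically rigid in `ℝ^d` (some, equivalently almost every, placement is
  infinitesimally rigid).
* `genRank d G`: the generic rank, the largest rank of the rigidity matrix at a placement in `ℝ^d`.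

Proof. By the theorem of Cauchy such a graph has a rotation of order `p`, so it is a circulant graph
on `ℤ / p`. Put the vertex `v` at the point with the coordinates `ζ^(a_i v)`, `ζ` a primitive `p`-th
root of unity. The infinitesimal motions split into blocks for the `p` frequencies `j`, and the block
of `j` is, up to units, the matrix with the entries `cos (2 π s j / 2 p) - cos (2 π s (a_i - j / 2) / p)`.
An even version of Chebotarev's theorem on the minors of the Fourier matrix of prime order (proved by
reduction modulo `ζ - 1`: a polynomial of degree less than `p` over a field of characteristic `p` which
is divisible by `(X - 1)^n` has more than `n` terms) gives the rank of each block. The ranks of integer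
polynomial matrices do not depend on the field in the generic case, so a real placement with at least
the same rank exists. For the graph without a vertex take `a_i = i`: a motion which violates only the
conditions of the edges `{-s, 0}` has two reflection symmetric polynomials (frequencies `d` and
`d - 1`) which agree, and is therefore a motion of the whole graph.
-/

set_option autoImplicit false

namespace Pool.Agent.Results.MP_37c7bf_co.PrimeOrderTransitive

open Pool.Agent.H789R5 Pool.Agent.H283R2.DR

/-- Let `G` be a vertex-transitive graph whose number `p ≥ 3` of vertices is a prime, `r` its degree
(so that it has `p r / 2` edges), and let `d` be any dimension.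

(1) If `r ≥ 2 (d + f)`, then after the deletion of any `f` edges, and after the deletion of any `f`
edges and any vertex, `G` is still generically rigid in `ℝ^d`. In particular `G` is generically rigid
in `ℝ^d` if `r ≥ 2 d`.

(2) If `3 * 2^d < 4 p` (for `d = 3`: `p ≥ 7`), then the generic rank of `G` in `ℝ^d` is the minimum of the
number of edges and `d p - d (d + 1) / 2`, and `G` is generically rigid in `ℝ^d` if and only if it has at
least `d p - d (d + 1) / 2` edges. -/
theorem result (V : Type) [Fintype V] (hV : (Fintype.card V).Prime) (h3 : 3 ≤ Fintype.card V)
    (G : SimpleGraph V) (hG : ∀ u v : V, ∃ f : G ≃g G, f u = v) (d : ℕ) :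
    (∀ F : Finset (Sym2 V), (d + F.card) * Fintype.card V ≤ G.edgeSet.ncard →
      GenRigid d (G.deleteEdges F) ∧
      ∀ v : V, GenRigid d ((G.deleteEdges F).induce ({v}ᶜ : Set V))) ∧
    (3 * 2 ^ d < 4 * Fintype.card V →
      genRank d G = min G.edgeSet.ncard (d * Fintype.card V - d * (d + 1) / 2) ∧
      (GenRigid d G ↔ d * Fintype.card V ≤ G.edgeSet.ncard + d * (d + 1) / 2)) :=
  Pool.Agent.Run7.h804.PV.main hV h3 G hG d

end Pool.Agent.Results.MP_37c7bf_co.PrimeOrderTransitive
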